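import Pool.Agent.Lib.MP_ccbbf6_gt.ML

set_option autoImplicit false
set_option linter.unusedSectionVars false

open MeasureTheory Measure Set Filter Topology Metric
open scoped ENNReal NNReal

noncomputable section

namespace BLM

variable {n : ℕ}

/-- the surface measure of the unit sphere of `ℝⁿ` -/
abbrev sig (n : ℕ) : Measure (sphere (0 : EuclideanSpace ℝ (Fin n)) 1) :=
  (volume : Measure (EuclideanSpace ℝ (Fin n))).toSphere

/-- polar coordinates in `ℝⁿ` for the Lebesgue integral of nonnegative functions -/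
lemma lintegral_polar (hn : 1 ≤ n) {f : EuclideanSpace ℝ (Fin n) → ℝ≥0∞} (hf : Measurable f) :
    ∫⁻ x, f x = ∫⁻ u, (∫⁻ t in Ioi (0:ℝ),
      ENNReal.ofReal (t ^ (n - 1)) * f (t • (u : EuclideanSpace ℝ (Fin n)))) ∂(sig n) := by
  have : Nonempty (Fin n) := ⟨⟨0, hn⟩⟩
  have hfr : Module.finrank ℝ (EuclideanSpace ℝ (Fin n)) = n := by simp
  have h0 : ∫⁻ x, f x = ∫⁻ x in ({0}ᶜ : Set (EuclideanSpace ℝ (Fin n))), f x := by
    rw [restrict_compl_singleton]
  have h1 : ∫⁻ x in ({0}ᶜ : Set (EuclideanSpace ℝ (Fin n))), f x =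
      ∫⁻ x : ({0}ᶜ : Set (EuclideanSpace ℝ (Fin n))), f x ∂(Measure.comap Subtype.val volume) := by
    rw [lintegral_subtype_comap (measurableSet_singleton _).compl]
  have hmp := (volume : Measure (EuclideanSpace ℝ (Fin n))).measurePreserving_homeomorphUnitSphereProd
  rw [hfr] at hmp
  have h2 : ∫⁻ x : ({0}ᶜ : Set (EuclideanSpace ℝ (Fin n))), f x ∂(Measure.comap Subtype.val volume) =
      ∫⁻ z : sphere (0 : EuclideanSpace ℝ (Fin n)) 1 × Ioi (0:ℝ), f ((z.2 : ℝ) • (z.1 : EuclideanSpace ℝ (Fin n)))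
        ∂((volume : Measure (EuclideanSpace ℝ (Fin n))).toSphere.prod (volumeIoiPow (n - 1))) := by
    rw [← hmp.lintegral_comp (by fun_prop)]
    refine lintegral_congr fun x => ?_
    congr 1
    have := congrArg Subtype.val ((homeomorphUnitSphereProd (EuclideanSpace ℝ (Fin n))).symm_apply_apply x)
    rw [homeomorphUnitSphereProd_symm_apply_coe] at this
    exact this.symm
  rw [h0, h1, h2, lintegral_prod _ (by fun_prop)]
  refine lintegral_congr fun u => ?_
  have hm : Measurable fun a : ℝ => ENNReal.ofReal (a ^ (n - 1)) * f (a • (u : EuclideanSpace ℝ (Fin n))) := by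
    fun_prop
  rw [volumeIoiPow, lintegral_withDensity_eq_lintegral_mul _ (by fun_prop) (by fun_prop)]
  simp only [Pi.mul_apply]
  exact lintegral_subtype_comap measurableSet_Ioi
    (fun a : ℝ => ENNReal.ofReal (a ^ (n - 1)) * f (a • (u : EuclideanSpace ℝ (Fin n))))

/-- polar coordinates on a ball -/
lemma setLIntegral_polar (hn : 1 ≤ n) {R : ℝ} {f : EuclideanSpace ℝ (Fin n) → ℝ≥0∞}
    (hf : Measurable ((ball 0 R \ {0}).indicator f)) :
    ∫⁻ x in ball 0 R \ {0}, f x = ∫⁻ u, (∫⁻ t in Ioo (0:ℝ) R,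
      ENNReal.ofReal (t ^ (n - 1)) * f (t • (u : EuclideanSpace ℝ (Fin n)))) ∂(sig n) := by
  rw [← lintegral_indicator (measurableSet_ball.diff (measurableSet_singleton _)), lintegral_polar hn hf]
  refine lintegral_congr fun u => ?_
  rw [← lintegral_indicator measurableSet_Ioi, ← lintegral_indicator measurableSet_Ioo]
  refine lintegral_congr fun t => ?_
  have hu : ‖(u : EuclideanSpace ℝ (Fin n))‖ = 1 := by simp
  by_cases ht : 0 < t
  · have hnorm : ‖t • (u : EuclideanSpace ℝ (Fin n))‖ = t := by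
      rw [norm_smul, hu, mul_one, Real.norm_of_nonneg ht.le]
    rw [indicator_of_mem (s := Ioi (0:ℝ)) ht]
    by_cases htR : t < R
    · rw [indicator_of_mem (s := Ioo (0:ℝ) R) ⟨ht, htR⟩, indicator_of_mem (s := ball 0 R \ {0})]
      refine ⟨?_, ?_⟩
      · rw [mem_ball_zero_iff, hnorm]; exact htR
      · rw [mem_singleton_iff, smul_eq_zero, not_or]
        exact ⟨ht.ne', by rw [← norm_eq_zero, hu]; exact one_ne_zero⟩
    · rw [indicator_of_notMem (s := Ioo (0:ℝ) R) (fun h => htR h.2),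
        indicator_of_notMem (s := ball 0 R \ {0}), mul_zero]
      intro h
      have := h.1
      rw [mem_ball_zero_iff, hnorm] at this
      exact htR this
  · rw [indicator_of_notMem (s := Ioi (0:ℝ)) ht, indicator_of_notMem (s := Ioo (0:ℝ) R) (fun h => ht h.1)]

end BLM
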